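import Pool.Agent.Lib.P49k.Defs
import Pool.Agent.Lib.P49d.PLv

/-!
# Module P49k.Chn: the canonical chain

PROOF SKETCH. `tab_inv`: `tabP_induct` with `P p := tabP R S S p ∧ R (tabP R S S) p` and `tabP_fix`. `chR` is monotone.
`on_lt`, `on_uniq` (induction on `i`) from `tab_inv`; `on_ex` by induction on `i` with `tabP_fix`
(`Nat.find` for the least element; `Lv r (range n) (h - i) z` with `h - i ≥ 2` gives `y` with `r z y` and
`Lv r (range n) (h - i - 1) y`). `(i * (n + 1) + x) / (n + 1) = i` etc. is `PLvAux.divmod`.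
-/

set_option autoImplicit false

namespace Pool.Agent.P49k

open Finset Pool.Agent.P99b9fe Pool.Agent.P49d

theorem tab_inv {R : (ℕ → Prop) → ℕ → Prop} {S x : ℕ}
    (hm : ∀ T T' : ℕ → Prop, (∀ y, T y → T' y) → ∀ p, R T p → R T' p)
    (h : tabP R S S x) : R (tabP R S S) x := by
  have key : ∀ p, tabP R S S p → tabP R S S p ∧ R (tabP R S S) p := by
    refine tabP_induct (P := fun p => tabP R S S p ∧ R (tabP R S S) p) ?_ _
    intro T hT p hp hR
    have h1 : R (tabP R S S) p := hm T _ (fun y hy => (hT y hy).1) p hR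
    exact ⟨tabP_fix hp h1, h1⟩
  exact (key x h).2

theorem chR_mono (n : ℕ) (r : ℕ → ℕ → Prop) (h : ℕ) (T T' : ℕ → Prop) (hT : ∀ y, T y → T' y)
    (p : ℕ) (hp : chR n r h T p) : chR n r h T' p := by
  obtain ⟨h1, h2, h3⟩ := hp
  refine ⟨h1, h2, ?_⟩
  rcases h3 with h3 | ⟨h3, z, hz, hTz, h4⟩
  · exact Or.inl h3
  · exact Or.inr ⟨h3, z, hz, hT _ hTz, h4⟩

theorem on_inv {n h i x : ℕ} {r : ℕ → ℕ → Prop} (hx : x < n + 1) (ho : On n r h i x) :
    i < h ∧ chC n r h (tabP (chR n r h) (h * (n + 1)) (h * (n + 1))) i x := by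
  have h1 := tab_inv (chR_mono n r h) ho
  have h2 := tabP_lt ho
  unfold chR at h1
  rw [(PLvAux.divmod n i x hx).1, (PLvAux.divmod n i x hx).2] at h1
  refine ⟨?_, h1⟩
  by_contra hc
  have h3 : h * (n + 1) ≤ i * (n + 1) := Nat.mul_le_mul_right _ (by omega)
  omega

theorem on_fix {n h i x : ℕ} {r : ℕ → ℕ → Prop} (hx : x < n + 1) (hi : i < h)
    (hc : chC n r h (tabP (chR n r h) (h * (n + 1)) (h * (n + 1))) i x) : On n r h i x := by
  have hlt : i * (n + 1) + x < h * (n + 1) := by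
    have h3 : (i + 1) * (n + 1) ≤ h * (n + 1) := Nat.mul_le_mul_right _ hi
    have h4 : (i + 1) * (n + 1) = i * (n + 1) + (n + 1) := by ring
    omega
  refine tabP_fix hlt ?_
  show chC n r h _ ((i * (n + 1) + x) / (n + 1)) ((i * (n + 1) + x) % (n + 1))
  rw [(PLvAux.divmod n i x hx).1, (PLvAux.divmod n i x hx).2]
  exact hc

theorem on_lt {n h i x : ℕ} {r : ℕ → ℕ → Prop} (hx : x < n + 1) (ho : On n r h i x) :
    x < n ∧ i < h ∧ Lv r (range n) (h - i) x := by
  obtain ⟨h1, h2, h3, _⟩ := on_inv hx ho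
  exact ⟨h2, h1, h3⟩

theorem on_uniq {n h i x y : ℕ} {r : ℕ → ℕ → Prop} (hx : x < n + 1) (hy : y < n + 1)
    (h1 : On n r h i x) (h2 : On n r h i y) : x = y := by
  induction i generalizing x y with
  | zero =>
    obtain ⟨_, _, hLx, hmx⟩ := on_inv hx h1
    obtain ⟨_, _, hLy, hmy⟩ := on_inv hy h2
    rw [Nat.sub_zero] at hLx hLy
    rcases hmx with ⟨_, hmx⟩ | ⟨hc, _⟩
    · rcases hmy with ⟨_, hmy⟩ | ⟨hc, _⟩
      · by_contra hne
        rcases Nat.lt_or_ge x y with hl | hl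
        · exact hmy x hl hLx
        · exact hmx y (by omega) hLy
      · omega
    · omega
  | succ i ih =>
    obtain ⟨_, _, hLx, hmx⟩ := on_inv hx h1
    obtain ⟨_, _, hLy, hmy⟩ := on_inv hy h2
    rcases hmx with ⟨hc, _⟩ | ⟨_, z, hz, hTz, hzx, hmx⟩
    · omega
    rcases hmy with ⟨hc, _⟩ | ⟨_, w, hw, hTw, hwy, hmy⟩
    · omega
    rw [Nat.add_sub_cancel] at hTz hTw
    have hzw : z = w := ih (by omega) (by omega) hTz hTw
    subst hzw
    by_contra hne
    rcases Nat.lt_or_ge x y with hl | hl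
    · exact hmy x hl ⟨hzx, hLx⟩
    · exact hmx y (by omega) ⟨hwy, hLy⟩

theorem on_exists {n h x : ℕ} {r : ℕ → ℕ → Prop} (hb : ∀ x y, r x y → x < n ∧ y < n)
    (hx : x < n) (h1 : Lv r (range n) h x) (i : ℕ) (hi : i < h) :
    ∃ y, y < n ∧ On n r h i y := by
  classical
  induction i with
  | zero =>
    have hex : ∃ y, Lv r (range n) h y := ⟨x, h1⟩
    have hle : Nat.find hex ≤ x := Nat.find_min' hex h1
    refine ⟨Nat.find hex, by omega, on_fix (by omega) hi ⟨by omega, ?_, Or.inl ⟨rfl, ?_⟩⟩⟩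
    · rw [Nat.sub_zero]
      exact Nat.find_spec hex
    · intro y hy
      exact Nat.find_min hex hy
  | succ i ih =>
    obtain ⟨z, hz, hoz⟩ := ih (by omega)
    obtain ⟨_, _, hLz⟩ := on_lt (by omega) hoz
    obtain ⟨m, hm⟩ : ∃ m, h - i = m + 1 := ⟨h - i - 1, by omega⟩
    rw [hm] at hLz
    obtain ⟨_, h2⟩ := hLz
    have hm' : m = h - (i + 1) := by omega
    have hex : ∃ y, r z y ∧ Lv r (range n) (h - (i + 1)) y := by
      rcases h2 with h2 | ⟨y, hzy, hLy⟩
      · omega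
      · exact ⟨y, hzy, by rwa [hm'] at hLy⟩
    have hs := Nat.find_spec hex
    have hlt := (hb _ _ hs.1).2
    refine ⟨Nat.find hex, hlt, on_fix (by omega) hi ⟨hlt, hs.2, Or.inr ⟨by omega, z, hz, ?_, hs.1, ?_⟩⟩⟩
    · rw [Nat.add_sub_cancel]
      exact hoz
    · intro y hy
      exact Nat.find_min hex hy

/-- The canonical chain. -/
theorem on_ex {n h x : ℕ} {r : ℕ → ℕ → Prop} (hb : ∀ x y, r x y → x < n ∧ y < n)
    (hx : x < n) (h1 : Lv r (range n) h x) :
    ∃ c : ℕ → ℕ, (∀ i < h, c i < n ∧ On n r h i (c i)) ∧ ∀ i, i + 1 < h → r (c i) (c (i + 1)) := by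
  classical
  have hex := on_exists hb hx h1
  refine ⟨fun i => if hi : i < h then Classical.choose (hex i hi) else 0, ?_, ?_⟩
  · intro i hi
    simp only [hi, dif_pos]
    exact Classical.choose_spec (hex i hi)
  · intro i hi
    have hi0 : i < h := by omega
    simp only [hi, hi0, dif_pos]
    obtain ⟨ha, hoa⟩ := Classical.choose_spec (hex i hi0)
    obtain ⟨hc, hoc⟩ := Classical.choose_spec (hex (i + 1) hi)
    obtain ⟨_, _, _, hm⟩ := on_inv (by omega) hoc
    rcases hm with ⟨hcon, _⟩ | ⟨_, z, hz, hTz, hzx, _⟩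
    · omega
    rw [Nat.add_sub_cancel] at hTz
    have hzw := on_uniq (by omega : z < n + 1) (by omega) hTz hoa
    rw [← hzw]
    exact hzx

end Pool.Agent.P49k
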