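import Pool.Agent.Lib.P49k.Snd
import Pool.Agent.Lib.P49k.Chn
import Pool.Agent.Lib.P49d.Dig

/-!
# Module P49k.Acc: a schedule and a long chain give codes

PROOF SKETCH. `D < n`, `σ` a schedule, `C` a chain, `h = C.card ≤ D ≤ h + k` (the elements of `C` are in different slots). Then
`Lv r (range n) h x` for the least element `x` of `C`, so there is the canonical chain
`c 0, ..., c (h - 1)` with `On n r h i (c i)` (`on_ex`); `σ (c i)` is strictly increasing. `Z`: the slots `u < D` which
are not `σ (c i)`, there are `D - h ≤ k` of them. `z`: a code (`code_ex`) whose first `k` digits are the elements of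
`Z`, each once, and otherwise `n`. `e`: the digit for the slot `u ∈ Z` is a task in `u` if there is one, otherwise `n`.
`ix n k z D = h`, `ix n k z (σ (c i)) = i`.
Apply `sd_ok` to `F = Fc n r k D z e` (slots `u ≥ D` are empty).
-/

set_option autoImplicit false

namespace Pool.Agent.P49k

open Finset Pool.Agent.P99b9fe Pool.Agent.P49d

/-- Digits give a code. -/
theorem code_ex (n k : ℕ) (g : ℕ → ℕ) (hg : ∀ j < k, g j ≤ n) :
    ∃ z < (n + 1) ^ k, ∀ j < k, z / (n + 1) ^ j % (n + 1) = g j :=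
  exists_code (n + 1) k g (fun j hj => Nat.lt_succ_of_le (hg j hj))

/-- A chain gives a level. -/
theorem AccAux.lv_chain {n : ℕ} {r : ℕ → ℕ → Prop} (σ : ℕ → ℕ)
    (hσ : ∀ x < n, ∀ y < n, r x y → σ x + 1 ≤ σ y) (m : ℕ) :
    ∀ C : Finset ℕ, C ⊆ range n → (∀ x ∈ C, ∀ y ∈ C, x ≠ y → r x y ∨ r y x) →
      C.card = m + 1 → ∃ x ∈ C, Lv r (range n) (m + 1) x := by
  induction m with
  | zero =>
    intro C hC _ hc
    obtain ⟨x, hx⟩ := Finset.card_pos.1 (by omega : 0 < C.card)
    exact ⟨x, hx, hC hx, Or.inl rfl⟩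
  | succ m ih =>
    intro C hC hC' hc
    obtain ⟨x, hx, hmin⟩ := Finset.exists_min_image C σ (Finset.card_pos.1 (by omega))
    have hcard : (C.erase x).card = m + 1 := by
      rw [Finset.card_erase_of_mem hx]; omega
    obtain ⟨y, hy, hly⟩ := ih (C.erase x) ((Finset.erase_subset _ _).trans hC)
      (fun a ha b hb => hC' a (Finset.mem_of_mem_erase ha) b (Finset.mem_of_mem_erase hb)) hcard
    have hyC := Finset.mem_of_mem_erase hy
    have hxy : r x y := by
      rcases hC' x hx y hyC (Finset.ne_of_mem_erase hy).symm with h | h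
      · exact h
      · exfalso
        have h1 := hσ y (mem_range.1 (hC hyC)) x (mem_range.1 (hC hx)) h
        have h2 := hmin y hyC
        omega
    exact ⟨x, hx, hC hx, Or.inr ⟨y, hxy, hly⟩⟩

theorem acc_of {n k D : ℕ} {r : ℕ → ℕ → Prop} (hr : SO r) (hb : ∀ x y, r x y → x < n ∧ y < n)
    (hD : D < n) (C : Finset ℕ) (hC : C ⊆ range n)
    (hC' : ∀ x ∈ C, ∀ y ∈ C, x ≠ y → r x y ∨ r y x) (hk : D ≤ C.card + k)
    (h : Sd r (range n) 3 D) : AccK n r k D := by
  classical
  obtain ⟨σ, hs1, hs2, hs3⟩ := h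
  have hs2' : ∀ x < n, σ x < D := fun x hx => hs2 x (mem_range.2 hx)
  have hs3' : ∀ x < n, ∀ y < n, r x y → σ x + 1 ≤ σ y := fun x hx y hy =>
    hs3 x (mem_range.2 hx) y (mem_range.2 hy)
  -- the canonical chain
  obtain ⟨m, hm⟩ : ∃ m, m = C.card := ⟨_, rfl⟩
  have hlv : ∃ x < n, Lv r (range n) m x := by
    rcases Nat.eq_zero_or_pos m with h0 | h0
    · refine ⟨0, by omega, ?_⟩
      rw [h0]; exact trivial
    · obtain ⟨m', rfl⟩ : ∃ m', m = m' + 1 := ⟨m - 1, by omega⟩
      obtain ⟨x, hx, hl⟩ := AccAux.lv_chain σ hs3' m' C hC hC' hm.symm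
      exact ⟨x, mem_range.1 (hC hx), hl⟩
  obtain ⟨x0, hx0, hl0⟩ := hlv
  obtain ⟨c, hc1, hc2⟩ := on_ex hb hx0 hl0
  have hcs : ∀ i, i + 1 < m → σ (c i) < σ (c (i + 1)) := fun i hi =>
    hs3' _ (hc1 i (by omega)).1 _ (hc1 (i + 1) hi).1 (hc2 i hi)
  have hcm : ∀ j, j < m → ∀ i, i < j → σ (c i) < σ (c j) := by
    intro j
    induction j with
    | zero => intro _ i hi; omega
    | succ j ih =>
      intro hj i hi
      rcases Nat.lt_succ_iff_lt_or_eq.1 hi with h1 | h1
      · exact (ih (by omega) i h1).trans (hcs j hj)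
      · rw [h1]; exact hcs j hj
  have hcinj : ∀ i < m, ∀ j < m, σ (c i) = σ (c j) → i = j := by
    intro i hi j hj hij
    rcases lt_trichotomy i j with h1 | h1 | h1
    · have := hcm j hj i h1; omega
    · exact h1
    · have := hcm i hi j h1; omega
  set S : Finset ℕ := (range m).image (fun i => σ (c i)) with hS
  have hScard : S.card = m := by
    rw [hS, Finset.card_image_of_injOn, card_range]
    intro i hi j hj hij
    exact hcinj i (by simpa using hi) j (by simpa using hj) hij
  have hSmem : ∀ u, u ∈ S ↔ ∃ i < m, σ (c i) = u := by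
    intro u; rw [hS]; simp
  have hSD : S ⊆ range D := by
    intro u hu
    obtain ⟨i, hi, rfl⟩ := (hSmem u).1 hu
    exact mem_range.2 (hs2' _ (hc1 i hi).1)
  set Z : Finset ℕ := range D \ S with hZ
  have hZcard : Z.card ≤ k := by
    rw [hZ, Finset.card_sdiff_of_subset hSD, card_range, hScard]; omega
  have hZmem : ∀ u < D, u ∈ Z ↔ u ∉ S := by
    intro u hu; rw [hZ]; simp [hu]
  have hZD : ∀ u ∈ Z, u < D := fun u hu => by
    rw [hZ] at hu; exact mem_range.1 (mem_sdiff.1 hu).1
  set l : List ℕ := Z.toList with hl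
  have hlen : l.length = Z.card := Finset.length_toList Z
  have hmem : ∀ x, x ∈ l ↔ x ∈ Z := fun x => Finset.mem_toList
  have hgetle : ∀ j, l.getD j n ≤ n := by
    intro j
    by_cases hj : j < l.length
    · rw [List.getD_eq_getElem _ _ hj]
      have := hZD _ ((hmem _).1 (List.getElem_mem hj))
      omega
    · rw [List.getD_eq_default _ _ (by omega)]
  obtain ⟨z, hz, hzd⟩ := code_ex n k (fun j => l.getD j n) (fun j _ => hgetle j)
  -- the task in a slot
  obtain ⟨t, ht1, ht2, ht3⟩ : ∃ t : ℕ → ℕ, (∀ u, t u ≤ n) ∧ (∀ u, t u < n → σ (t u) = u) ∧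
      ∀ u, (∃ x < n, σ x = u) → t u < n := by
    refine ⟨fun u => if hu : ∃ x < n, σ x = u then hu.choose else n, ?_, ?_, ?_⟩
    · intro u
      by_cases hu : ∃ x < n, σ x = u
      · simp only [dif_pos hu]; exact hu.choose_spec.1.le
      · simp only [dif_neg hu]; exact le_rfl
    · intro u hlt
      by_cases hu : ∃ x < n, σ x = u
      · simp only [dif_pos hu]; exact hu.choose_spec.2
      · simp only [dif_neg hu] at hlt; omega
    · intro u hu
      simp only [dif_pos hu]; exact hu.choose_spec.1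
  obtain ⟨e, he, hed⟩ := code_ex n k (fun j => t (l.getD j n)) (fun j _ => ht1 _)
  have hZk : ∀ u < n, Zk n k z u ↔ u ∈ Z := by
    intro u hu
    unfold Zk
    constructor
    · rintro ⟨j, hj, hju⟩
      rw [hzd j hj] at hju
      by_cases hjl : j < l.length
      · rw [List.getD_eq_getElem _ _ hjl] at hju
        rw [← hju]; exact (hmem _).1 (List.getElem_mem hjl)
      · rw [List.getD_eq_default _ _ (by omega)] at hju
        omega
    · intro huZ
      obtain ⟨j, hj, hju⟩ := List.getElem_of_mem ((hmem u).2 huZ)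
      refine ⟨j, by omega, ?_⟩
      rw [hzd j (by omega)]
      show l.getD j n = u
      rw [List.getD_eq_getElem _ _ hj]
      exact hju
  have hEk : ∀ u < n, ∀ x, Ek n k z e x u ↔ u ∈ Z ∧ t u = x := by
    intro u hu x
    rw [← hZk u hu]
    unfold Ek Zk
    constructor
    · rintro ⟨j, hj, h1, h2⟩
      refine ⟨⟨j, hj, h1⟩, ?_⟩
      rw [hzd j hj] at h1
      rw [hed j hj] at h2
      rw [← h1]; exact h2
    · rintro ⟨⟨j, hj, h1⟩, h2⟩
      refine ⟨j, hj, h1, ?_⟩
      rw [hzd j hj] at h1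
      rw [hed j hj, h1]; exact h2
  have hix : ∀ u ≤ D, ix n k z u = ((range m).filter (fun i => σ (c i) < u)).card := by
    intro u hu
    unfold ix
    have h1 : (range u).filter (fun v => ¬ Zk n k z v) =
        ((range m).filter (fun i => σ (c i) < u)).image (fun i => σ (c i)) := by
      ext v
      simp only [mem_filter, mem_range, mem_image]
      constructor
      · rintro ⟨hv, hnz⟩
        rw [hZk v (by omega), hZmem v (by omega), not_not, hSmem] at hnz
        obtain ⟨i, hi, hiv⟩ := hnz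
        exact ⟨i, ⟨hi, by omega⟩, hiv⟩
      · rintro ⟨i, ⟨hi, hiu⟩, rfl⟩
        refine ⟨hiu, ?_⟩
        rw [hZk _ (by omega), hZmem _ (by omega), not_not, hSmem]
        exact ⟨i, hi, rfl⟩
    rw [h1, Finset.card_image_of_injOn]
    intro i hi j hj hij
    simp only [coe_filter, mem_range, Set.mem_ofPred_eq] at hi hj
    exact hcinj i hi.1 j hj.1 hij
  have hixD : ix n k z D = m := by
    rw [hix D le_rfl, Finset.filter_true_of_mem, card_range]
    intro i hi
    exact hs2' _ (hc1 i (mem_range.1 hi)).1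
  have hixc : ∀ i < m, ix n k z (σ (c i)) = i := by
    intro i hi
    rw [hix _ (hs2' _ (hc1 i hi).1).le]
    have h1 : (range m).filter (fun j => σ (c j) < σ (c i)) = range i := by
      ext j
      simp only [mem_filter, mem_range]
      constructor
      · rintro ⟨hj, hji⟩
        by_contra hcon
        rcases Nat.lt_or_ge i j with h2 | h2
        · have := hcm j hj i h2; omega
        · have : i = j := by omega
          rw [this] at hji; omega
      · intro hj
        exact ⟨by omega, hcm i hi j hj⟩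
    rw [h1, card_range]
  -- the fixed tasks
  have hF1 : ∀ i < m, Fc n r k D z e (c i) (σ (c i)) := by
    intro i hi
    have hlt := hs2' _ (hc1 i hi).1
    refine ⟨(hc1 i hi).1, by omega, hlt, Or.inl ⟨?_, ?_⟩⟩
    · rw [hZk _ (by omega), hZmem _ hlt, not_not, hSmem]
      exact ⟨i, hi, rfl⟩
    · rw [hixD, hixc i hi]
      exact (hc1 i hi).2
  have hF2 : ∀ u < n, ∀ x < n, Fc n r k D z e x u →
      (∃ i < m, σ (c i) = u ∧ x = c i) ∨ (u ∈ Z ∧ t u = x) := by
    rintro u hu x hx ⟨_, _, huD, ⟨h1, h2⟩ | h1⟩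
    · left
      rw [hZk u hu, hZmem u huD, not_not, hSmem] at h1
      obtain ⟨i, hi, hiu⟩ := h1
      refine ⟨i, hi, hiu, ?_⟩
      rw [hixD, ← hiu, hixc i hi] at h2
      exact on_uniq (by omega) (by have := (hc1 i hi).1; omega) h2 (hc1 i hi).2
    · right
      exact (hEk u hu x).1 h1
  refine ⟨z, hz, e, he, sd_ok hD.le σ hs2' (fun x hx y hy hxy => hs3' x hx y hy hxy) ?_ ?_ ?_⟩
  · intro x hx u hu hF
    rcases hF2 u hu x hx hF with ⟨i, hi, hiu, hxi⟩ | ⟨_, htu⟩
    · rw [hxi]; exact hiu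
    · rw [← htu]; exact ht2 u (by omega)
  · intro u hu x hx y hy hFx hFy
    rcases hF2 u hu x hx hFx with ⟨i, hi, hiu, hxi⟩ | ⟨hZ1, htu⟩
    · rcases hF2 u hu y hy hFy with ⟨j, hj, hju, hyj⟩ | ⟨hZ2, _⟩
      · have : i = j := hcinj i hi j hj (by omega)
        rw [hxi, hyj, this]
      · exfalso
        have h1 := hZD u hZ2
        exact (hZmem u h1).1 hZ2 ((hSmem u).2 ⟨i, hi, hiu⟩)
    · rcases hF2 u hu y hy hFy with ⟨j, hj, hju, hyj⟩ | ⟨_, htu'⟩
      · exfalso
        have h1 := hZD u hZ1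
        exact (hZmem u h1).1 hZ1 ((hSmem u).2 ⟨j, hj, hju⟩)
      · rw [← htu, ← htu']
  · intro u hu
    by_cases hex : ∃ x < n, σ x = u
    · -- some task of the slot is fixed
      obtain ⟨y, hy, hyu, hyF⟩ : ∃ y < n, σ y = u ∧ Fc n r k D z e y u := by
        obtain ⟨x, hx, hxu⟩ := hex
        have huD : u < D := by rw [← hxu]; exact hs2' x hx
        by_cases huS : u ∈ S
        · obtain ⟨i, hi, hiu⟩ := (hSmem u).1 huS
          refine ⟨c i, (hc1 i hi).1, hiu, ?_⟩
          have := hF1 i hi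
          rwa [hiu] at this
        · have htn := ht3 u ⟨x, hx, hxu⟩
          refine ⟨t u, htn, ht2 u htn, htn, hu, huD, Or.inr ?_⟩
          exact (hEk u hu _).2 ⟨(hZmem u huD).2 huS, rfl⟩
      have hsub : (range n).filter (fun x => σ x = u ∧ ¬ Fc n r k D z e x u) ⊆
          ((range n).filter (fun x => σ x = u)).erase y := by
        intro x hx
        rw [mem_filter] at hx
        refine mem_erase.2 ⟨?_, mem_filter.2 ⟨hx.1, hx.2.1⟩⟩
        rintro rfl
        exact hx.2.2 hyF
      have h1 := Finset.card_le_card hsub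
      rw [Finset.card_erase_of_mem (mem_filter.2 ⟨mem_range.2 hy, hyu⟩)] at h1
      have h2 := hs1 u
      refine le_trans (le_of_eq ?_) (h1.trans (by omega))
      congr 1
    · rw [Finset.card_eq_zero.2]
      · omega
      · rw [Finset.filter_eq_empty_iff]
        intro x hx hxx
        exact hex ⟨x, mem_range.1 hx, hxx.1⟩

end Pool.Agent.P49k
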