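import Pool.Agent.Lib.P49d.Defs

/-!
# Three processors, deadline at most the length of a chain plus `k`: definitions for the proof

The tasks are the numbers `0, ..., n - 1`. A relation `F` fixes some tasks in slots (`F x u`: the task
`x` is done in slot `u`); the other tasks have two processors, release times and deadlines.
-/

set_option autoImplicit false

namespace Pool.Agent.P49k

open Finset Pool.Agent.P99b9fe Pool.Agent.P49d

/-- The task `x` is not fixed. -/
def Fr (n : ℕ) (F : ℕ → ℕ → Prop) (x : ℕ) : Prop := ∀ u < n, ¬ F x u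

/-- The release time of `x` is at least `s`. -/
def Rg (n : ℕ) (r F : ℕ → ℕ → Prop) (x s : ℕ) : Prop :=
  s = 0 ∨ ∃ y < n, ∃ u < n, F y u ∧ r y x ∧ s ≤ u + 1

/-- The deadline of `x` is at most `d`. -/
def D0 (n : ℕ) (r F : ℕ → ℕ → Prop) (D x d : ℕ) : Prop :=
  D ≤ d ∨ ∃ y < n, ∃ u < n, F y u ∧ r x y ∧ u ≤ d

open Classical in
/-- The tasks other than `x` with deadline at most `e`, which are done after `x` or are released at
`d + 1` or later. -/
noncomputable def Ct (n : ℕ) (r F : ℕ → ℕ → Prop) (T : ℕ → Prop) (x d e : ℕ) : ℕ :=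
  ((range n).filter (fun k => Fr n F k ∧ k ≠ x ∧ T (k * (n + 1) + e) ∧
    (r x k ∨ Rg n r F k (d + 1)))).card

/-- The rule for the deadlines, for the index `x * (n + 1) + d`. -/
def gjC (n : ℕ) (r F : ℕ → ℕ → Prop) (D : ℕ) (T : ℕ → Prop) (x d : ℕ) : Prop :=
  D0 n r F D x d ∨ (0 < d ∧ T (x * (n + 1) + (d - 1))) ∨
    (∃ y < n, Fr n F y ∧ r x y ∧ d < n ∧ T (y * (n + 1) + (d + 1))) ∨
    ∃ e < n + 1, 2 * (e - (d + 1)) < Ct n r F T x d e

/-- The rule for the deadlines. -/
def gjR (n : ℕ) (r F : ℕ → ℕ → Prop) (D : ℕ) (T : ℕ → Prop) (p : ℕ) : Prop :=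
  gjC n r F D T (p / (n + 1)) (p % (n + 1))

/-- The deadline of `x` is at most `d`, as found by the rule. -/
def Dl (n : ℕ) (r F : ℕ → ℕ → Prop) (D x d : ℕ) : Prop :=
  tabP (gjR n r F D) (n * (n + 1)) (n * (n + 1)) (x * (n + 1) + d)

open Classical in
/-- The test: there is a schedule in which the tasks fixed by `F` are in their slots and at most two
other tasks in every slot. -/
def Ok (n : ℕ) (r F : ℕ → ℕ → Prop) (D : ℕ) : Prop :=
  (∀ x < n, ∀ u < n, F x u → u < D) ∧
  (∀ x < n, ∀ u < n, ∀ v < n, F x u → F x v → u = v) ∧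
  (∀ u < n, ∀ x < n, ∀ y < n, F x u → F y u → x = y) ∧
  (∀ x < n, ∀ u < n, ∀ y < n, ∀ v < n, F x u → F y v → r x y → u < v) ∧
  ∀ s < n + 1, ∀ d < n + 1,
    ((range n).filter (fun x => Fr n F x ∧ Dl n r F D x d ∧ Rg n r F x s)).card ≤ 2 * (d - s)

/-! ### The chain -/

/-- The rule for the canonical chain with `h` elements, for the index `i * (n + 1) + x`. -/
def chC (n : ℕ) (r : ℕ → ℕ → Prop) (h : ℕ) (T : ℕ → Prop) (i x : ℕ) : Prop :=
  x < n ∧ Lv r (range n) (h - i) x ∧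
    ((i = 0 ∧ ∀ y < x, ¬ Lv r (range n) h y) ∨
      (0 < i ∧ ∃ z < n, T ((i - 1) * (n + 1) + z) ∧ r z x ∧
        ∀ y < x, ¬ (r z y ∧ Lv r (range n) (h - i) y)))

/-- The rule for the canonical chain. -/
def chR (n : ℕ) (r : ℕ → ℕ → Prop) (h : ℕ) (T : ℕ → Prop) (p : ℕ) : Prop :=
  chC n r h T (p / (n + 1)) (p % (n + 1))

/-- The element `i` of the canonical chain with `h` elements is `x`. -/
def On (n : ℕ) (r : ℕ → ℕ → Prop) (h i x : ℕ) : Prop :=
  tabP (chR n r h) (h * (n + 1)) (h * (n + 1)) (i * (n + 1) + x)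

/-- The slot `u` is one of the first `k` digits of `z`. -/
def Zk (n k z u : ℕ) : Prop := ∃ j < k, z / (n + 1) ^ j % (n + 1) = u

/-- The task `x` is put into the slot `u` by the codes `z` and `e`. -/
def Ek (n k z e x u : ℕ) : Prop :=
  ∃ j < k, z / (n + 1) ^ j % (n + 1) = u ∧ e / (n + 1) ^ j % (n + 1) = x

open Classical in
/-- The number of slots before `u` which are not digits of `z`. -/
noncomputable def ix (n k z u : ℕ) : ℕ := ((range u).filter (fun v => ¬ Zk n k z v)).card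

/-- The fixed tasks. -/
def Fc (n : ℕ) (r : ℕ → ℕ → Prop) (k D z e x u : ℕ) : Prop :=
  x < n ∧ u < n ∧ u < D ∧
    ((¬ Zk n k z u ∧ On n r (ix n k z D) (ix n k z u) x) ∨ Ek n k z e x u)

/-- The algorithm finds a schedule for the deadline `D`. -/
def AccK (n : ℕ) (r : ℕ → ℕ → Prop) (k D : ℕ) : Prop :=
  ∃ z < (n + 1) ^ k, ∃ e < (n + 1) ^ k, Ok n r (Fc n r k D z e) D

open Classical in
/-- The number found by the algorithm. -/
noncomputable def gvalK (n : ℕ) (r : ℕ → ℕ → Prop) (k : ℕ) : ℕ :=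
  ((range n).filter (fun D => ∀ D' < D + 1, ¬ AccK n r k D')).card

end Pool.Agent.P49k
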