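import Pool.Agent.Lib.P49k.Defs

/-!
# Module P49k.Gj: two processors, release times and deadlines (Garey, Johnson 1977)

`Rg x s`: the release time of `x` is at least `s`; `Dl x d`: the deadline of `x` is at most `d`.
-/

set_option autoImplicit false

namespace Pool.Agent.P49k

open Finset Pool.Agent.P49d

/-- At most two elements with the smallest keys. -/
theorem gj_choice (δ : ℕ → ℕ) (X : Finset ℕ) : ∃ B : Finset ℕ, B ⊆ X ∧ B.card ≤ 2 ∧
    (B.card = 2 ∨ B = X) ∧ ∀ b ∈ B, ∀ k ∈ X, k ∉ B → δ b ≤ δ k := by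
  by_cases hc : X.card ≤ 2
  · exact ⟨X, Subset.rfl, hc, Or.inr rfl, fun b _ k hk hk' => absurd hk hk'⟩
  · have hne : X.Nonempty := card_pos.1 (by omega)
    obtain ⟨x, hx, hx'⟩ := exists_min_image X δ hne
    have hc2 : (X.erase x).card = X.card - 1 := card_erase_of_mem hx
    obtain ⟨y, hy, hy'⟩ := exists_min_image (X.erase x) δ (card_pos.1 (by omega))
    have hxy : x ≠ y := fun h => (notMem_erase x X) (h ▸ hy)
    refine ⟨{x, y}, ?_, ?_, Or.inl (card_pair hxy), ?_⟩
    · intro z hz
      rcases mem_insert.1 hz with h | h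
      · exact h ▸ hx
      · exact (mem_singleton.1 h) ▸ mem_of_mem_erase hy
    · rw [card_pair hxy]
    · intro b hb k hk hk'
      rcases mem_insert.1 hb with h | h
      · rw [h]
        exact hx' k hk
      · rw [mem_singleton.1 h]
        refine hy' k (mem_erase.2 ⟨fun h2 => hk' ?_, hk⟩)
        rw [h2]
        exact mem_insert_self _ _

open Classical in
theorem gj (V : Finset ℕ) (r Rg Dl : ℕ → ℕ → Prop) (D : ℕ) (hr : SO r)
    (h0 : ∀ x ∈ V, Rg x 0) (h1 : ∀ x ∈ V, ∀ s, Rg x (s + 1) → Rg x s)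
    (h2 : ∀ x ∈ V, ∀ y ∈ V, r x y → ∀ s, Rg x s → Rg y s)
    (h3 : ∀ x ∈ V, Dl x D)
    (h7 : ∀ x ∈ V, ∀ d, d + 1 ≤ D → Dl x d → Dl x (d + 1))
    (h4 : ∀ x ∈ V, ∀ y ∈ V, r x y → ∀ d, d + 1 ≤ D → Dl y (d + 1) → Dl x d)
    (h5 : ∀ x ∈ V, ∀ s, s < D → ∀ d, d ≤ D →
      2 * (d - (s + 1)) < (V.filter (fun k => k ≠ x ∧ Dl k d ∧ (r x k ∨ Rg k (s + 1)))).card →
        Dl x s)
    (h6 : ∀ s, s ≤ D → ∀ d, d ≤ D → (V.filter (fun k => Dl k d ∧ Rg k s)).card ≤ 2 * (d - s)) :
    ∃ σ : ℕ → ℕ, (∀ x ∈ V, ∀ s, Rg x s → s ≤ σ x) ∧ (∀ x ∈ V, ∀ d, d ≤ D → Dl x d → σ x + 1 ≤ d) ∧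
      (∀ x ∈ V, ∀ y ∈ V, r x y → σ x < σ y) ∧ ∀ u, (V.filter (fun x => σ x = u)).card ≤ 2 := by
  -- the deadlines
  obtain ⟨δ, hδ⟩ : ∃ δ : ℕ → ℕ, ∀ x ∈ V, ∀ d, d ≤ D → (Dl x d ↔ δ x ≤ d) := by
    refine ⟨fun x => sInf {d | Dl x d}, fun x hx d hd => ⟨fun h => Nat.sInf_le h, fun h => ?_⟩⟩
    have hm : Dl x (sInf {d | Dl x d}) := Nat.sInf_mem (s := {d | Dl x d}) ⟨D, h3 x hx⟩
    obtain ⟨j, rfl⟩ := Nat.exists_eq_add_of_le h
    clear h
    induction j with
    | zero => exact hm
    | succ j ih => exact h7 x hx _ (by omega) (ih (by omega))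
  choose B hB1 hB2 hB3 hB4 using gj_choice δ
  obtain ⟨av, hav⟩ : ∃ av : Finset ℕ → ℕ → Finset ℕ, ∀ (A' : Finset ℕ) (u x : ℕ), x ∈ av A' u ↔
      (x ∈ V ∧ x ∉ A' ∧ ¬ Rg x (u + 1) ∧ ∀ y ∈ V, r y x → y ∈ A') :=
    ⟨fun A' u => V.filter (fun x => x ∉ A' ∧ ¬ Rg x (u + 1) ∧ ∀ y ∈ V, r y x → y ∈ A'),
      fun _ _ _ => mem_filter⟩
  obtain ⟨A, hA0, hAs'⟩ : ∃ A : ℕ → Finset ℕ, A 0 = ∅ ∧ ∀ u, A (u + 1) = A u ∪ B (av (A u) u) :=
    ⟨fun u => Nat.rec ∅ (fun u A => A ∪ B (av A u)) u, rfl, fun u => rfl⟩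
  obtain ⟨W, hW⟩ : ∃ W : ℕ → Finset ℕ, ∀ u, W u = B (av (A u) u) := ⟨_, fun _ => rfl⟩
  have hAs : ∀ u, A (u + 1) = A u ∪ W u := fun u => by rw [hAs', hW]
  have hWV : ∀ u, ∀ x ∈ W u, x ∈ V ∧ x ∉ A u ∧ ¬ Rg x (u + 1) ∧ ∀ y ∈ V, r y x → y ∈ A u := by
    intro u x hx
    rw [hW] at hx
    exact (hav _ _ _).1 (hB1 _ hx)
  have hW2 : ∀ u, (W u).card ≤ 2 := fun u => by rw [hW]; exact hB2 _
  have hmono : ∀ u j, A u ⊆ A (u + j) := by
    intro u j
    induction j with
    | zero => exact Subset.rfl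
    | succ j ih =>
      refine ih.trans ?_
      rw [show u + (j + 1) = (u + j) + 1 from rfl, hAs]
      exact subset_union_left
  have hmono' : ∀ {u v}, u ≤ v → A u ⊆ A v := by
    intro u v huv
    obtain ⟨j, rfl⟩ := Nat.exists_eq_add_of_le huv
    exact hmono u j
  have hAV : ∀ u, ∀ x ∈ A u, x ∈ V := by
    intro u
    induction u with
    | zero => intro x hx; simp [hA0] at hx
    | succ u ih =>
      intro x hx
      rw [hAs] at hx
      rcases mem_union.1 hx with h | h
      · exact ih x h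
      · exact (hWV u x h).1
  have hfrom : ∀ u v x, u ≤ v → x ∈ A v → x ∉ A u → ∃ w, u ≤ w ∧ w < v ∧ x ∈ W w := by
    intro u v x huv
    obtain ⟨j, rfl⟩ := Nat.exists_eq_add_of_le huv
    clear huv
    induction j with
    | zero => intro h1 h2; exact absurd h1 h2
    | succ j ih =>
      intro hx hx'
      rw [show u + (j + 1) = (u + j) + 1 from rfl, hAs] at hx
      rcases mem_union.1 hx with h | h
      · obtain ⟨w, hw1, hw2, hw3⟩ := ih h hx'
        exact ⟨w, hw1, by omega, hw3⟩
      · exact ⟨u + j, by omega, by omega, h⟩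
  have huniq : ∀ w w' x, x ∈ W w → x ∈ W w' → w = w' := by
    have key : ∀ w w' x, x ∈ W w → x ∈ W w' → ¬ w < w' := by
      intro w w' x hw hw' hlt
      refine (hWV w' x hw').2.1 (hmono' hlt ?_)
      rw [hAs]
      exact mem_union_right _ hw
    intro w w' x hw hw'
    have a1 := key w w' x hw hw'
    have a2 := key w' w x hw' hw
    omega
  -- the main claim
  have main : ∀ d, d ≤ D → ∀ x ∈ V, δ x ≤ d → x ∈ A d := by
    intro d
    induction d using Nat.strong_induction_on with
    | _ d ih =>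
    intro hdD x0 hx0 hx0d
    refine Classical.byContradiction fun hx0A => ?_
    have hex : ∃ s, s ≤ d ∧ ∀ u, s ≤ u → u < d → ((W u).card = 2 ∧ ∀ b ∈ W u, δ b ≤ d) :=
      ⟨d, le_rfl, fun u h1 h2 => absurd h1 (by omega)⟩
    obtain ⟨s, ⟨hsd, hgood⟩, hsmin⟩ : ∃ s, (s ≤ d ∧ ∀ u, s ≤ u → u < d →
        ((W u).card = 2 ∧ ∀ b ∈ W u, δ b ≤ d)) ∧ ∀ t, t + 1 = s →
          ¬ ((W t).card = 2 ∧ ∀ b ∈ W t, δ b ≤ d) := by
      refine ⟨Nat.find hex, Nat.find_spec hex, fun t ht hg => ?_⟩
      have h8 := Nat.find_min hex (m := t) (by omega)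
      have h9 := Nat.find_spec hex
      apply h8
      refine ⟨by omega, fun u hu1 hu2 => ?_⟩
      rcases Nat.lt_or_ge t u with h | h
      · exact h9.2 u (by omega) hu2
      · have : u = t := by omega
        rw [this]
        exact hg
    have hcard : ∀ j, s + j ≤ d → (A (s + j)).card = (A s).card + 2 * j := by
      intro j
      induction j with
      | zero => intro _; rfl
      | succ j ihj =>
        intro hj
        rw [show s + (j + 1) = (s + j) + 1 from rfl, hAs, card_union_of_disjoint, ihj (by omega),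
          (hgood (s + j) (by omega) (by omega)).1]
        · ring
        · rw [disjoint_left]
          intro x hx hx'
          exact (hWV _ x hx').2.1 hx
    have hcard2 : (A d \ A s).card = 2 * (d - s) := by
      rw [card_sdiff_of_subset (hmono' hsd)]
      have := hcard (d - s) (by omega)
      rw [show s + (d - s) = d by omega] at this
      omega
    set S := insert x0 (A d \ A s) with hS
    have hScard : S.card = 2 * (d - s) + 1 := by
      rw [hS, card_insert_of_notMem, hcard2]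
      intro h
      exact hx0A (mem_sdiff.1 h).1
    have hSprop : ∀ k ∈ S, k ∈ V ∧ δ k ≤ d ∧ k ∉ A s := by
      intro k hk
      rcases mem_insert.1 hk with h | h
      · rw [h]
        exact ⟨hx0, hx0d, fun h2 => hx0A (hmono' hsd h2)⟩
      · obtain ⟨h8, h9⟩ := mem_sdiff.1 h
        obtain ⟨w, hw1, hw2, hw3⟩ := hfrom s d k hsd h8 h9
        exact ⟨hAV _ _ h8, (hgood w hw1 hw2).2 k hw3, h9⟩
    have hno : ∀ q, q ≤ D → q = s → (∀ k ∈ S, Rg k q) → False := by
      intro q hq hqs hk
      have h8 := h6 q hq d hdD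
      have h9 : S ⊆ V.filter (fun k => Dl k d ∧ Rg k q) := by
        intro k hk'
        obtain ⟨a1, a2, -⟩ := hSprop k hk'
        exact mem_filter.2 ⟨a1, (hδ k a1 d hdD).2 a2, hk k hk'⟩
      have h10 := card_le_card h9
      omega
    rcases Nat.eq_zero_or_pos s with hs0 | hspos
    · exact hno 0 (Nat.zero_le _) hs0.symm (fun k hk => h0 k (hSprop k hk).1)
    · obtain ⟨t, rfl⟩ : ∃ t, s = t + 1 := ⟨s - 1, by omega⟩
      have hbad := hsmin t rfl
      have hC1 : ∀ k ∈ V, δ k ≤ d → k ∉ A (t + 1) → k ∉ av (A t) t := by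
        intro k hk hkd hkA hkav
        have hkW : k ∉ W t := fun h => hkA (by rw [hAs]; exact mem_union_right _ h)
        rcases hB3 (av (A t) t) with h | h
        · rw [← hW] at h
          refine hbad ⟨h, fun b hb => ?_⟩
          rw [hW] at hb hkW
          exact (hB4 _ b hb k hkav hkW).trans hkd
        · apply hkW
          rw [hW, h]
          exact hkav
      have hC2 : ∀ k ∈ V, δ k ≤ d → k ∉ A (t + 1) → ¬ Rg k (t + 1) →
          ∃ y ∈ W t, r y k ∧ δ y ≤ d := by
        intro k hk hkd hkA hkR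
        have hkA' : k ∉ A t := fun h => hkA (hmono' (Nat.le_succ t) h)
        have hYm : ∀ y, y ∈ V.filter (fun y => r y k ∧ y ∉ A t) ↔ (y ∈ V ∧ r y k ∧ y ∉ A t) := by
          intro y
          rw [mem_filter]
        generalize V.filter (fun y => r y k ∧ y ∉ A t) = Y at hYm
        have hY : Y.Nonempty := by
          refine Classical.byContradiction fun hem => ?_
          apply hC1 k hk hkd hkA
          refine (hav _ _ _).2 ⟨hk, hkA', hkR, fun y hy hyk => ?_⟩
          refine Classical.byContradiction fun hyA => ?_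
          exact hem ⟨y, (hYm y).2 ⟨hy, hyk, hyA⟩⟩
        obtain ⟨y, hy, hymin⟩ := exists_min_image Y
          (fun y => (V.filter (fun z => r z y)).card) hY
        obtain ⟨hyV, hyk, hyA⟩ := (hYm y).1 hy
        have hpred : ∀ z ∈ V, r z y → z ∈ A t := by
          intro z hz hzy
          by_contra hzA
          have h8 := hymin z ((hYm z).2 ⟨hz, hr.trans z y k hzy hyk, hzA⟩)
          have h9 : V.filter (fun w => r w z) ⊂ V.filter (fun w => r w y) := by
            refine (ssubset_iff_of_subset ?_).2 ⟨z, mem_filter.2 ⟨hz, hzy⟩, ?_⟩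
            · intro w hw
              obtain ⟨hw1, hw2⟩ := mem_filter.1 hw
              exact mem_filter.2 ⟨hw1, hr.trans w z y hw2 hzy⟩
            · intro h
              exact hr.irr z (mem_filter.1 h).2
          have h10 := card_lt_card h9
          omega
        obtain ⟨d', rfl⟩ : ∃ d', d = d' + 1 := ⟨d - 1, by omega⟩
        have hyd : δ y ≤ d' := by
          have := h4 y hyV k hk hyk d' hdD ((hδ k hk _ hdD).2 hkd)
          exact (hδ y hyV d' (by omega)).1 this
        have hyA2 : y ∈ A (t + 1) := by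
          by_contra hyA3
          apply hC1 y hyV (by omega) hyA3
          exact (hav _ _ _).2 ⟨hyV, hyA, fun h => hkR (h2 y hyV k hk hyk _ h), hpred⟩
        rw [hAs] at hyA2
        rcases mem_union.1 hyA2 with h | h
        · exact absurd h hyA
        · exact ⟨y, h, hyk, by omega⟩
      by_cases hall : ∀ k ∈ S, Rg k (t + 1)
      · exact hno (t + 1) (by omega) rfl hall
      · push Not at hall
        obtain ⟨k0, hk0, hk0R⟩ := hall
        obtain ⟨a1, a2, a3⟩ := hSprop k0 hk0
        obtain ⟨y, hyW, -, hyd⟩ := hC2 k0 a1 a2 a3 hk0R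
        have hsub : S ⊆ V.filter (fun k => k ≠ y ∧ Dl k d ∧ (r y k ∨ Rg k (t + 1))) := by
          intro k hk
          obtain ⟨b1, b2, b3⟩ := hSprop k hk
          refine mem_filter.2 ⟨b1, ?_, (hδ k b1 d hdD).2 b2, ?_⟩
          · intro h
            apply b3
            rw [h, hAs]
            exact mem_union_right _ hyW
          · by_cases hkR : Rg k (t + 1)
            · exact Or.inr hkR
            · left
              obtain ⟨y', hyW', hy'k, hy'd⟩ := hC2 k b1 b2 b3 hkR
              by_cases hyy : y = y'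
              · rw [hyy]
                exact hy'k
              · exfalso
                apply hbad
                have hle : (W t).card ≤ 2 := hW2 t
                have hpair : ({y, y'} : Finset ℕ) ⊆ W t := by
                  intro z hz
                  rcases mem_insert.1 hz with h | h
                  · rw [h]; exact hyW
                  · rw [mem_singleton.1 h]; exact hyW'
                have heq : ({y, y'} : Finset ℕ) = W t :=
                  eq_of_subset_of_card_le hpair (by rw [card_pair hyy]; exact hle)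
                refine ⟨by rw [← heq, card_pair hyy], fun b hb => ?_⟩
                rw [← heq] at hb
                rcases mem_insert.1 hb with h | h
                · rw [h]; exact hyd
                · rw [mem_singleton.1 h]; exact hy'd
        have h8 := card_le_card hsub
        have h9 := h5 y (hWV t y hyW).1 t (by omega) d hdD (by omega)
        have h10 := ih t (by omega) (by omega) y (hWV t y hyW).1
          ((hδ y (hWV t y hyW).1 t (by omega)).1 h9)
        exact (hWV t y hyW).2.1 h10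
  -- the schedule
  have hsel : ∀ x, ∃ w, x ∈ V → x ∈ W w := by
    intro x
    by_cases hx : x ∈ V
    · have h8 := main D le_rfl x hx ((hδ x hx D le_rfl).1 (h3 x hx))
      obtain ⟨w, -, -, hw⟩ := hfrom 0 D x (Nat.zero_le _) h8 (by simp [hA0])
      exact ⟨w, fun _ => hw⟩
    · exact ⟨0, fun h => absurd h hx⟩
  choose σ hσ using hsel
  have hσA : ∀ x ∈ V, ∀ d, x ∈ A d → σ x < d := by
    intro x hx d hd
    obtain ⟨w, -, hw, hw'⟩ := hfrom 0 d x (Nat.zero_le _) hd (by simp [hA0])
    rw [huniq _ _ x (hσ x hx) hw']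
    exact hw
  refine ⟨σ, ?_, ?_, ?_, ?_⟩
  · intro x hx s hs
    by_contra hlt
    obtain ⟨j, hj⟩ := Nat.exists_eq_add_of_le (show σ x + 1 ≤ s by omega)
    have key : ∀ j, Rg x (σ x + 1 + j) → Rg x (σ x + 1) := by
      intro j
      induction j with
      | zero => exact fun h => h
      | succ j ihj => exact fun h => ihj (h1 x hx _ h)
    exact (hWV _ x (hσ x hx)).2.2.1 (key j (hj ▸ hs))
  · intro x hx d hd h
    exact hσA x hx d (main d hd x hx ((hδ x hx d hd).1 h))
  · intro x hx y hy hxy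
    exact hσA x hx _ ((hWV _ y (hσ y hy)).2.2.2 x hx hxy)
  · intro u
    have hsub : V.filter (fun x => σ x = u) ⊆ W u := by
      intro x hx
      obtain ⟨h8, h9⟩ := mem_filter.1 hx
      rw [← h9]
      exact hσ x h8
    exact (card_le_card hsub).trans (hW2 u)

end Pool.Agent.P49k
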