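import Pool.Agent.Lib.P49k.Defs
import Pool.Agent.Lib.P49d.PLv

/-!
# Module P49k.POk: polynomial time, the test `Ok`

PROOF SKETCH. As `P49d/PLv.lean`: `poly_tab'` with `S = n * (n + 1)` and the rule `gjR` (`n_div`, `n_mod`, `p_ex`, `n_card`,
`poly_rT`, `poly_tb`), then bounded quantifiers and `n_card`.
-/

set_option autoImplicit false

namespace Pool.Agent.P49k

open Finset Pool.Agent.P99b9fe Pool.Agent.Lib.PolyTime Pool.Agent.Lib.Pa7c826
open Pool.Agent.Lib.P8e91ed.PT Pool.Agent.P49d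

variable {α : Type} {D : α → Prop} {ctx : List (α → List Bool)} {n d : α → ℕ}
  {t F : α → List Bool}

namespace POkAux

theorem poly_fr {x : α → ℕ} (hn : PolyN D ctx n) (hF : PolyC D ctx F) (hx : PolyN D ctx x) :
    PolyP D ctx (fun a => Fr (n a) (rT (n a) (F a)) (x a)) := by
  unfold Fr
  exact p_fa hn (poly_rT (nU hn) (cU hF) (nU hx) nL).not

theorem poly_rg {x s : α → ℕ} (hn : PolyN D ctx n) (ht : PolyC D ctx t) (hF : PolyC D ctx F)
    (hx : PolyN D ctx x) (hs : PolyN D ctx s) :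
    PolyP D ctx (fun a => Rg (n a) (rT (n a) (t a)) (rT (n a) (F a)) (x a) (s a)) := by
  unfold Rg
  refine (PolyP.eq hs (PolyN.const 0)).or (p_ex hn (p_ex (nU hn) ?_))
  exact (poly_rT (nU (nU hn)) (cU (cU hF)) (nU nL) nL).and
    ((poly_rT (nU (nU hn)) (cU (cU ht)) (nU nL) (nU (nU hx))).and
      (PolyP.le (nU (nU hs)) nL.succ))

theorem poly_d0 {x e : α → ℕ} (hn : PolyN D ctx n) (ht : PolyC D ctx t) (hF : PolyC D ctx F)
    (hd : PolyN D ctx d) (hx : PolyN D ctx x) (he : PolyN D ctx e) :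
    PolyP D ctx (fun a => D0 (n a) (rT (n a) (t a)) (rT (n a) (F a)) (d a) (x a) (e a)) := by
  unfold D0
  refine (PolyP.le hd he).or (p_ex hn (p_ex (nU hn) ?_))
  exact (poly_rT (nU (nU hn)) (cU (cU hF)) (nU nL) nL).and
    ((poly_rT (nU (nU hn)) (cU (cU ht)) (nU (nU hx)) (nU nL)).and
      (PolyP.le nL (nU (nU he))))

theorem poly_ct {x e e' : α → ℕ} {T : α → List Bool} (hn : PolyN D ctx n) (ht : PolyC D ctx t)
    (hF : PolyC D ctx F) (hT : PolyC D ctx T) (hx : PolyN D ctx x) (he : PolyN D ctx e)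
    (he' : PolyN D ctx e') :
    PolyN D ctx (fun a => Ct (n a) (rT (n a) (t a)) (rT (n a) (F a)) (tb (T a)) (x a) (e a)
      (e' a)) := by
  classical
  unfold Ct
  refine n_card (n := n) (P := fun a k => Fr (n a) (rT (n a) (F a)) k ∧ k ≠ x a ∧
    tb (T a) (k * (n a + 1) + e' a) ∧ (rT (n a) (t a) (x a) k ∨
      Rg (n a) (rT (n a) (t a)) (rT (n a) (F a)) k (e a + 1))) hn ?_
  refine (poly_fr (nU hn) (cU hF) nL).and (((PolyP.eq nL (nU hx)).not).and ?_)
  refine (poly_tb (cU hT) ((nL.mul (nU hn).succ).add (nU he'))).and ?_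
  exact (poly_rT (nU hn) (cU ht) (nU hx) nL).or
    (poly_rg (nU hn) (cU ht) (cU hF) nL (nU he).succ)

theorem poly_gjC {x e : α → ℕ} {T : α → List Bool} (hn : PolyN D ctx n) (ht : PolyC D ctx t)
    (hF : PolyC D ctx F) (hd : PolyN D ctx d) (hT : PolyC D ctx T) (hx : PolyN D ctx x)
    (he : PolyN D ctx e) :
    PolyP D ctx (fun a => gjC (n a) (rT (n a) (t a)) (rT (n a) (F a)) (d a) (tb (T a)) (x a)
      (e a)) := by
  unfold gjC
  refine (poly_d0 hn ht hF hd hx he).or (PolyP.or ?_ (PolyP.or ?_ ?_))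
  · exact (PolyP.lt (PolyN.const 0) he).and
      (poly_tb hT ((hx.mul hn.succ).add (PolyN.sub he (PolyN.const 1))))
  · refine p_ex hn ?_
    exact (poly_fr (nU hn) (cU hF) nL).and ((poly_rT (nU hn) (cU ht) (nU hx) nL).and
      ((PolyP.lt (nU he) (nU hn)).and
        (poly_tb (cU hT) ((nL.mul (nU hn).succ).add (nU he).succ))))
  · refine p_ex hn.succ ?_
    exact PolyP.lt ((PolyN.const 2).mul (PolyN.sub nL (nU he).succ))
      (poly_ct (nU hn) (cU ht) (cU hF) (cU hT) (nU hx) (nU he) nL)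

theorem poly_gjR {z : α → ℕ} {T : α → List Bool} (hn : PolyN D ctx n) (ht : PolyC D ctx t)
    (hF : PolyC D ctx F) (hd : PolyN D ctx d) (hT : PolyC D ctx T) (hz : PolyN D ctx z) :
    PolyP D ctx (fun a => gjR (n a) (rT (n a) (t a)) (rT (n a) (F a)) (d a) (tb (T a))
      (z a)) := by
  unfold gjR
  exact poly_gjC hn ht hF hd hT (n_div hz hn.succ) (n_mod hz hn.succ)

end POkAux

open POkAux

theorem poly_ok (hn : PolyN D ctx n) (ht : PolyC D ctx t) (hF : PolyC D ctx F)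
    (hd : PolyN D ctx d) :
    PolyP D ctx (fun a => Ok (n a) (rT (n a) (t a)) (rT (n a) (F a)) (d a)) := by
  classical
  obtain ⟨T, hT, hTs⟩ := poly_tab' (D := D) (ctx := ctx)
    (R := fun a => gjR (n a) (rT (n a) (t a)) (rT (n a) (F a)) (d a))
    (S := fun a => n a * (n a + 1)) (hn.mul hn.succ) (by
      intro T z D' ctx' hD hc hT hz
      have n1 : PolyN D' ctx' (fun p => n p.1.1) :=
        poly_moveC (fun p : (α × ℕ) × ℕ => p.1.1) hD hc hn
      have t1 : PolyC D' ctx' (fun p => t p.1.1) :=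
        poly_moveC (fun p : (α × ℕ) × ℕ => p.1.1) hD hc ht
      have F1 : PolyC D' ctx' (fun p => F p.1.1) :=
        poly_moveC (fun p : (α × ℕ) × ℕ => p.1.1) hD hc hF
      have d1 : PolyN D' ctx' (fun p => d p.1.1) :=
        poly_moveC (fun p : (α × ℕ) × ℕ => p.1.1) hD hc hd
      exact poly_gjR n1 t1 F1 d1 hT hz)
  have p1 : PolyP D ctx (fun a => ∀ x < n a, ∀ u < n a, rT (n a) (F a) x u → u < d a) :=
    p_fa hn (p_fa (nU hn) ((poly_rT (nU (nU hn)) (cU (cU hF)) (nU nL) nL).imp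
      (PolyP.lt nL (nU (nU hd)))))
  have p2 : PolyP D ctx (fun a => ∀ x < n a, ∀ u < n a, ∀ v < n a, rT (n a) (F a) x u →
      rT (n a) (F a) x v → u = v) :=
    p_fa hn (p_fa (nU hn) (p_fa (nU (nU hn))
      ((poly_rT (nU (nU (nU hn))) (cU (cU (cU hF))) (nU (nU nL)) (nU nL)).imp
        ((poly_rT (nU (nU (nU hn))) (cU (cU (cU hF))) (nU (nU nL)) nL).imp
          (PolyP.eq (nU nL) nL)))))
  have p3 : PolyP D ctx (fun a => ∀ u < n a, ∀ x < n a, ∀ y < n a, rT (n a) (F a) x u →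
      rT (n a) (F a) y u → x = y) :=
    p_fa hn (p_fa (nU hn) (p_fa (nU (nU hn))
      ((poly_rT (nU (nU (nU hn))) (cU (cU (cU hF))) (nU nL) (nU (nU nL))).imp
        ((poly_rT (nU (nU (nU hn))) (cU (cU (cU hF))) nL (nU (nU nL))).imp
          (PolyP.eq (nU nL) nL)))))
  have p4 : PolyP D ctx (fun a => ∀ x < n a, ∀ u < n a, ∀ y < n a, ∀ v < n a,
      rT (n a) (F a) x u → rT (n a) (F a) y v → rT (n a) (t a) x y → u < v) :=
    p_fa hn (p_fa (nU hn) (p_fa (nU (nU hn)) (p_fa (nU (nU (nU hn)))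
      ((poly_rT (nU (nU (nU (nU hn)))) (cU (cU (cU (cU hF)))) (nU (nU (nU nL))) (nU (nU nL))).imp
        ((poly_rT (nU (nU (nU (nU hn)))) (cU (cU (cU (cU hF)))) (nU nL) nL).imp
          ((poly_rT (nU (nU (nU (nU hn)))) (cU (cU (cU (cU ht)))) (nU (nU (nU nL))) (nU nL)).imp
            (PolyP.lt (nU (nU nL)) nL)))))))
  have p5 : PolyP D ctx (fun a => ∀ s < n a + 1, ∀ e < n a + 1,
      ((range (n a)).filter (fun x => Fr (n a) (rT (n a) (F a)) x ∧
        tb (T a) (x * (n a + 1) + e) ∧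
          Rg (n a) (rT (n a) (t a)) (rT (n a) (F a)) x s)).card ≤ 2 * (e - s)) := by
    refine p_fa hn.succ (p_fa (nU hn).succ ?_)
    refine PolyP.le ?_ ((PolyN.const 2).mul (PolyN.sub nL (nU nL)))
    refine n_card (n := fun p : (α × ℕ) × ℕ => n p.1.1)
      (P := fun p x => Fr (n p.1.1) (rT (n p.1.1) (F p.1.1)) x ∧
        tb (T p.1.1) (x * (n p.1.1 + 1) + p.2) ∧
          Rg (n p.1.1) (rT (n p.1.1) (t p.1.1)) (rT (n p.1.1) (F p.1.1)) x p.1.2)
      (nU (nU hn)) ?_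
    refine (poly_fr (nU (nU (nU hn))) (cU (cU (cU hF))) nL).and ?_
    refine (poly_tb (cU (cU (cU hT))) ((nL.mul (nU (nU (nU hn))).succ).add (nU nL))).and ?_
    exact poly_rg (nU (nU (nU hn))) (cU (cU (cU ht))) (cU (cU (cU hF))) nL (nU (nU nL))
  refine (p1.and (p2.and (p3.and (p4.and p5)))).congr fun a ha => ?_
  unfold Ok Dl
  rw [← hTs a ha]

end Pool.Agent.P49k
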