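import Pool.Agent.Lib.P49k.Gj
import Pool.Agent.Lib.P49d.PLv

/-!
# Module P49k.Snd: the test is correct
-/

set_option autoImplicit false

namespace Pool.Agent.P49k

open Finset Pool.Agent.P99b9fe Pool.Agent.P49d

/-- The table of the deadlines is closed under the rule. -/
theorem dl_fix {n D x d : ℕ} {r F : ℕ → ℕ → Prop} (hx : x < n) (hd : d < n + 1)
    (h : gjC n r F D (tabP (gjR n r F D) (n * (n + 1)) (n * (n + 1))) x d) : Dl n r F D x d := by
  have hlt : x * (n + 1) + d < n * (n + 1) := by nlinarith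
  refine tabP_fix hlt ?_
  unfold gjR
  rw [(PLvAux.divmod n x d hd).1, (PLvAux.divmod n x d hd).2]
  exact h

open Classical in
theorem ok_sd {n D : ℕ} {r F : ℕ → ℕ → Prop} (hr : SO r) (hD : D ≤ n) (h : Ok n r F D) :
    Sd r (range n) 3 D := by
  obtain ⟨hok1, hok2, hok3, hok4, hok5⟩ := h
  have hV : ∀ x, x ∈ (range n).filter (Fr n F) ↔ x < n ∧ Fr n F x := by
    intro x
    rw [mem_filter, mem_range]
  obtain ⟨σ₀, hs1, hs2, hs3, hs4⟩ := gj ((range n).filter (Fr n F)) r (Rg n r F) (Dl n r F D) D hr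
    (fun x _ => Or.inl rfl)
    (by
      rintro x - s (h | ⟨y, hy, u, hu, h1, h2, h3⟩)
      · omega
      · exact Or.inr ⟨y, hy, u, hu, h1, h2, by omega⟩)
    (by
      rintro x - y - hxy s (h | ⟨z, hz, u, hu, h1, h2, h3⟩)
      · exact Or.inl h
      · exact Or.inr ⟨z, hz, u, hu, h1, hr.trans _ _ _ h2 hxy, h3⟩)
    (by
      intro x hx
      exact dl_fix ((hV x).1 hx).1 (by omega) (Or.inl (Or.inl le_rfl)))
    (by
      intro x hx d hd h
      refine dl_fix ((hV x).1 hx).1 (by omega) (Or.inr (Or.inl ⟨by omega, ?_⟩))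
      rw [Nat.add_sub_cancel]
      exact h)
    (by
      intro x hx y hy hxy d hd h
      exact dl_fix ((hV x).1 hx).1 (by omega)
        (Or.inr (Or.inr (Or.inl ⟨y, ((hV y).1 hy).1, ((hV y).1 hy).2, hxy, by omega, h⟩))))
    (by
      intro x hx s hs d hd h
      refine dl_fix ((hV x).1 hx).1 (by omega)
        (Or.inr (Or.inr (Or.inr ⟨d, by omega, lt_of_lt_of_le h ?_⟩)))
      unfold Ct
      refine card_le_card fun k hk => ?_
      rw [mem_filter, hV] at hk
      rw [mem_filter, mem_range]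
      exact ⟨hk.1.1, hk.1.2, hk.2.1, hk.2.2.1, hk.2.2.2⟩)
    (by
      intro s hs d hd
      refine le_trans (card_le_card fun k hk => ?_) (hok5 s (by omega) d (by omega))
      rw [mem_filter, hV] at hk
      rw [mem_filter, mem_range]
      exact ⟨hk.1.1, hk.1.2, hk.2.1, hk.2.2⟩)
  have hsel : ∀ x, ∃ u, (F x u ∧ u < n) ∨ (Fr n F x ∧ u = σ₀ x) := by
    intro x
    by_cases hx : Fr n F x
    · exact ⟨_, Or.inr ⟨hx, rfl⟩⟩
    · unfold Fr at hx
      push Not at hx
      obtain ⟨u, hu, hF⟩ := hx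
      exact ⟨u, Or.inl ⟨hF, hu⟩⟩
  choose σ hσ using hsel
  refine ⟨σ, fun u => ?_, fun x hx => ?_, fun x hx y hy hxy => ?_⟩
  · have hsub : (range n).filter (fun x => σ x = u) ⊆
        ((range n).filter (fun x => F x u ∧ u < n)) ∪
          (((range n).filter (Fr n F)).filter (fun x => σ₀ x = u)) := by
      intro x hx
      rw [mem_filter] at hx
      rw [mem_union, mem_filter, mem_filter, hV]
      rcases hσ x with h | h
      · rw [hx.2] at h
        exact Or.inl ⟨hx.1, h⟩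
      · exact Or.inr ⟨⟨mem_range.1 hx.1, h.1⟩, by rw [← h.2]; exact hx.2⟩
    have hc1 : ((range n).filter (fun x => F x u ∧ u < n)).card ≤ 1 := by
      rw [card_le_one]
      intro x hx y hy
      rw [mem_filter, mem_range] at hx hy
      exact hok3 u hx.2.2 x hx.1 y hy.1 hx.2.1 hy.2.1
    have hc2 := hs4 u
    have hc3 := card_le_card hsub
    have hc4 := card_union_le ((range n).filter (fun x => F x u ∧ u < n))
      (((range n).filter (Fr n F)).filter (fun x => σ₀ x = u))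
    omega
  · rw [mem_range] at hx
    rcases hσ x with h | h
    · exact hok1 x hx _ h.2 h.1
    · rw [h.2]
      exact hs2 x ((hV x).2 ⟨hx, h.1⟩) D le_rfl (dl_fix hx (by omega) (Or.inl (Or.inl le_rfl)))
  · rw [mem_range] at hx hy
    rcases hσ x with hx' | hx' <;> rcases hσ y with hy' | hy'
    · exact hok4 x hx _ hx'.2 y hy _ hy'.2 hx'.1 hy'.1 hxy
    · rw [hy'.2]
      exact hs1 y ((hV y).2 ⟨hy, hy'.1⟩) _ (Or.inr ⟨x, hx, σ x, hx'.2, hx'.1, hxy, le_rfl⟩)
    · rw [hx'.2]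
      have h1 := hok1 y hy _ hy'.2 hy'.1
      exact hs2 x ((hV x).2 ⟨hx, hx'.1⟩) _ h1.le (dl_fix hx (by omega)
        (Or.inl (Or.inr ⟨y, hy, σ y, hy'.2, hy'.1, hxy, le_rfl⟩)))
    · rw [hx'.2, hy'.2]
      exact hs3 x ((hV x).2 ⟨hx, hx'.1⟩) y ((hV y).2 ⟨hy, hy'.1⟩) hxy

open Classical in
theorem sd_ok {n D : ℕ} {r F : ℕ → ℕ → Prop} (hD : D ≤ n) (σ : ℕ → ℕ)
    (h1 : ∀ x < n, σ x < D) (h2 : ∀ x < n, ∀ y < n, r x y → σ x < σ y)
    (h3 : ∀ x < n, ∀ u < n, F x u → σ x = u) (h4 : ∀ u < n, ∀ x < n, ∀ y < n, F x u → F y u → x = y)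
    (h5 : ∀ u < n, ((range n).filter (fun x => σ x = u ∧ ¬ F x u)).card ≤ 2) : Ok n r F D := by
  -- the number of free tasks in a window
  have hwin : ∀ (a e : ℕ) (S : Finset ℕ), (∀ k ∈ S, k < n ∧ Fr n F k ∧ a ≤ σ k ∧ σ k < e) →
      S.card ≤ 2 * (e - a) := by
    intro a e S hS
    have hc := card_le_mul_card_image (f := σ) S 2 (by
      intro u hu
      obtain ⟨k, hk, rfl⟩ := mem_image.1 hu
      obtain ⟨hkn, -, -, -⟩ := hS k hk
      have hun : σ k < n := (h1 k hkn).trans_le hD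
      refine le_trans (card_le_card fun x hx => ?_) (h5 (σ k) hun)
      rw [mem_filter] at hx
      rw [mem_filter, mem_range]
      obtain ⟨b1, b2, -, -⟩ := hS x hx.1
      exact ⟨b1, hx.2, fun hF => b2 _ hun hF⟩)
    have hc2 : (S.image σ).card ≤ (Ico a e).card := by
      refine card_le_card fun u hu => ?_
      obtain ⟨k, hk, rfl⟩ := mem_image.1 hu
      obtain ⟨-, -, b3, b4⟩ := hS k hk
      exact mem_Ico.2 ⟨b3, b4⟩
    rw [Nat.card_Ico] at hc2
    exact hc.trans (Nat.mul_le_mul_left 2 hc2)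
  have hrel : ∀ x < n, ∀ s, Rg n r F x s → s ≤ σ x := by
    rintro x hx s (h | ⟨y, hy, u, hu, hF, hyx, hs⟩)
    · omega
    · have a1 := h3 y hy u hu hF
      have a2 := h2 y hy x hx hyx
      omega
  have hdl : ∀ p, tabP (gjR n r F D) (n * (n + 1)) (n * (n + 1)) p →
      p / (n + 1) < n → Fr n F (p / (n + 1)) → σ (p / (n + 1)) + 1 ≤ p % (n + 1) := by
    refine tabP_induct (P := fun p => p / (n + 1) < n → Fr n F (p / (n + 1)) →
      σ (p / (n + 1)) + 1 ≤ p % (n + 1)) ?_ _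
    intro T hT p _ hR hx hfr
    have hd : p % (n + 1) < n + 1 := Nat.mod_lt _ (Nat.succ_pos n)
    unfold gjR at hR
    generalize p / (n + 1) = x at hR hx hfr ⊢
    generalize p % (n + 1) = d at hR hd ⊢
    have hT' : ∀ k e, e < n + 1 → T (k * (n + 1) + e) → k < n → Fr n F k → σ k + 1 ≤ e := by
      intro k e he hTk hk hfk
      have h6 := hT _ hTk
      rw [(PLvAux.divmod n k e he).1, (PLvAux.divmod n k e he).2] at h6
      exact h6 hk hfk
    rcases hR with (h | ⟨y, hy, u, hu, hF, hxy, hud⟩) | ⟨hd0, h⟩ | ⟨y, hy, hfy, hxy, hdn, h⟩ |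
      ⟨e, he, h⟩
    · have := h1 x hx
      omega
    · have a1 := h3 y hy u hu hF
      have a2 := h2 x hx y hy hxy
      omega
    · have := hT' x (d - 1) (by omega) h hx hfr
      omega
    · have a1 := hT' y (d + 1) (by omega) h hy hfy
      have a2 := h2 x hx y hy hxy
      omega
    · by_contra hcon
      have h7 := hwin (d + 1) e ((range n).filter (fun k => Fr n F k ∧ k ≠ x ∧
        T (k * (n + 1) + e) ∧ (r x k ∨ Rg n r F k (d + 1)))) (by
        intro k hk
        rw [mem_filter, mem_range] at hk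
        obtain ⟨hk1, hk2, -, hk4, hk5⟩ := hk
        have a1 := hT' k e he hk4 hk1 hk2
        refine ⟨hk1, hk2, ?_, by omega⟩
        rcases hk5 with hk5 | hk5
        · have := h2 x hx k hk1 hk5
          omega
        · exact hrel k hk1 _ hk5)
      unfold Ct at h
      omega
  refine ⟨?_, ?_, h4, ?_, ?_⟩
  · intro x hx u hu hF
    rw [← h3 x hx u hu hF]
    exact h1 x hx
  · intro x hx u hu v hv hF hF'
    rw [← h3 x hx u hu hF, h3 x hx v hv hF']
  · intro x hx u hu y hy v hv hF hF' hxy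
    rw [← h3 x hx u hu hF, ← h3 y hy v hv hF']
    exact h2 x hx y hy hxy
  · intro s hs d hd
    refine hwin s d _ ?_
    intro k hk
    rw [mem_filter, mem_range] at hk
    obtain ⟨hk1, hk2, hk3, hk4⟩ := hk
    have a1 := hdl _ hk3
    rw [(PLvAux.divmod n k d hd).1, (PLvAux.divmod n k d hd).2] at a1
    have a2 := a1 hk1 hk2
    exact ⟨hk1, hk2, hrel k hk1 s hk4, by omega⟩

end Pool.Agent.P49k
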